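import Pool.Agent.Helper750.UC.Two
import Pool.Agent.Helper158.FCD.Torsor

set_option autoImplicit false

/-!
A computable structure of computable dimension two whose theory is uncountably categorical.
-/

namespace Pool.Agent.Results.MP_0054e7_lc.DimensionTwo

open Pool.Agent.Helper750.UC

/-- There are two computable structures `A` and `B` (with universe `ℕ`, in the language with the
binary relation symbols `r 0, r 1, ...`) which are isomorphic but not computably isomorphic, such
that every computable structure isomorphic to `A` is computably isomorphic to `A` or to `B`, and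
such that the complete theory of `A` is categorical in every uncountable cardinality. -/
theorem result : ∃ A B : ℕ → ℕ → ℕ → Prop, IsComp A ∧ IsComp B ∧
    -- `A` and `B` are isomorphic
    (∃ f, IsIsoN A B f) ∧
    -- but not computably isomorphic
    (¬ ∃ f, Computable f ∧ IsIsoN A B f) ∧
    -- every computable copy of `A` is computably isomorphic to `A` or to `B`
    (∀ C, IsComp C → (∃ f, IsIsoN A C f) →
      (∃ f, Computable f ∧ IsIsoN A C f) ∨ ∃ f, Computable f ∧ IsIsoN B C f) ∧
    -- the complete theory of `A` is uncountably categorical
    ∀ κ : Cardinal.{0}, Cardinal.aleph0 < κ → κ.Categorical (ThN A) := by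
  obtain ⟨T⟩ := Pool.Agent.Helper158.FCD.torsor
  obtain ⟨A, B, hfin, hA, hB, h1, h2, h3⟩ := two T
  exact ⟨A, B, hA, hB, h1, h2, h3, fun κ hκ => categorical_of_finite A hfin κ hκ⟩

end Pool.Agent.Results.MP_0054e7_lc.DimensionTwo
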